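import Pool.Agent.Helper83.RK2.ThyDef

/-!
# The degree on a chamber is a theory on the walls
-/

set_option autoImplicit false
set_option linter.unusedVariables false
set_option linter.unusedSectionVars false

open Set MeasureTheory Metric Filter Topology
open scoped NNReal ENNReal

namespace Pool.Agent.Helper83.RK2

open Pool.Agent.Helper3.HS

namespace h9

variable {V : Type} [NormedAddCommGroup V] [NormedSpace ℝ V] [FiniteDimensional ℝ V]
  [MeasurableSpace V] [BorelSpace V] {μ : Measure V} [μ.IsAddHaarMeasure] {H : Type}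
  [AddCommGroup H] {p : ℕ} (D : CDat μ H p)

/-- a point of a ball which does not contain `y` -/
theorem seg_ne {a b c y : V} {r t : ℝ} (ha : dist a c ≤ r) (hb : dist b c ≤ r)
    (hy : r < dist c y) (ht : t ∈ Icc (0 : ℝ) 1) : (1 - t) • (a - y) + t • (b - y) ≠ 0 := by
  intro h
  have h1 : (1 - t) • a + t • b ∈ closedBall c r :=
    convex_closedBall c r (mem_closedBall.2 ha) (mem_closedBall.2 hb) (by linarith [ht.2]) ht.1
      (by ring)
  have h2 : (1 - t) • a + t • b = y := by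
    have h3 : (1 - t) • (a - y) + t • (b - y) = ((1 - t) • a + t • b) - y := by
      rw [smul_sub, smul_sub]
      have : y = (1 - t) • y + t • y := by rw [← add_smul]; simp
      conv_rhs => rw [this]
      abel
    rw [h3] at h
    exact sub_eq_zero.1 h
  rw [h2, mem_closedBall, dist_comm] at h1
  linarith

/-- comparison of the degrees of two maps on an open subset of the chamber -/
theorem deg_cmp {Y : Set V} (hY : IsOpen Y) (hYX : Y ⊆ D.X) {B B' : V → V} (hB : Continuous B)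
    (hB' : Continuous B') (hBF : ∀ x ∈ closure D.X, dist (B x) (D.F x) ≤ D.ε)
    (hBF' : ∀ x ∈ closure D.X, dist (B' x) (D.F x) ≤ D.ε)
    (hfr : ∀ x ∈ frontier Y, (∃ r : ℝ, r < dist (B x) D.y ∧ dist (B' x) (B x) ≤ r) ∨
      2 * D.ε ≤ dist (D.F x) D.y) {k : ℝ} (h : HasDeg μ Y B D.y k) : HasDeg μ Y B' D.y k := by
  refine HasDeg.homotopy μ hY (D.hXb.subset hYX) hB.continuousOn hB'.continuousOn h ?_
  intro x hx t ht
  have hxX : x ∈ closure D.X := closure_mono hYX (frontier_subset_closure hx)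
  have hε := D.hε
  rcases hfr x hx with ⟨r, h1, h2⟩ | h1
  · have h0 : 0 ≤ r := dist_nonneg.trans h2
    exact seg_ne (c := B x) (by rw [dist_self]; exact h0) h2 h1 ht
  · exact seg_ne (hBF x hxX) (hBF' x hxX) (by linarith) ht

theorem far_ne {B : V → V} {x : V} (h : dist (B x) (D.F x) ≤ D.ε)
    (h' : 2 * D.ε ≤ dist (D.F x) D.y) : B x ≠ D.y := by
  intro heq
  rw [heq, dist_comm] at h
  have := D.hε
  linarith

end h9

section base
variable {V : Type} [NormedAddCommGroup V] [NormedSpace ℝ V] [FiniteDimensional ℝ V]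
  [MeasurableSpace V] [BorelSpace V] {μ : Measure V} [μ.IsAddHaarMeasure] {H : Type}
  [AddCommGroup H] {p : ℕ}

open Classical in
/-- The degree of a map given on the walls. -/
noncomputable def CDat.deg (D : CDat μ H p) (P : V → V) : ℤ :=
  if h : ∃ k : ℤ, ∃ B : V → V, Continuous B ∧ EqOn B P D.W ∧
    (∀ x ∈ closure D.X, dist (B x) (D.F x) ≤ D.ε) ∧ HasDeg μ D.X B D.y k then h.choose else 0

end base

namespace h9

variable {V : Type} [NormedAddCommGroup V] [NormedSpace ℝ V] [FiniteDimensional ℝ V]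
  [MeasurableSpace V] [BorelSpace V] {μ : Measure V} [μ.IsAddHaarMeasure] {H : Type}
  [AddCommGroup H] {p : ℕ} (D : CDat μ H p)

theorem deg_spec {P B : V → V} (hP : ∀ x ∈ D.W, P x ≠ D.y) (hB : Continuous B)
    (hBP : EqOn B P D.W) (hBF : ∀ x ∈ closure D.X, dist (B x) (D.F x) ≤ D.ε) :
    HasDeg μ D.X B D.y (D.deg P) := by
  have hne : ∀ x ∈ frontier D.X, B x ≠ D.y := by
    intro x hx
    rcases D.hfr x hx with h1 | h1
    · rw [hBP h1]; exact hP x h1
    · exact far_ne D (hBF x (frontier_subset_closure hx)) h1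
  obtain ⟨κ, hκ⟩ := HasDeg.exists μ D.hX D.hXb (F := B) hB.continuousOn hne
  obtain ⟨m, hm⟩ := hκ.int μ D.hX D.hXb hB.continuousOn
  have hex : ∃ k : ℤ, ∃ B : V → V, Continuous B ∧ EqOn B P D.W ∧
    (∀ x ∈ closure D.X, dist (B x) (D.F x) ≤ D.ε) ∧ HasDeg μ D.X B D.y k :=
    ⟨m, B, hB, hBP, hBF, by rw [← hm]; exact hκ⟩
  have e : D.deg P = hex.choose := by
    unfold CDat.deg
    rw [dif_pos hex]
  obtain ⟨B', hB', hBP', hBF', hdeg⟩ := hex.choose_spec
  rw [e]
  refine deg_cmp D D.hX Subset.rfl hB' hB hBF' hBF (fun x hx => ?_) hdeg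
  rcases D.hfr x hx with h1 | h1
  · refine Or.inl ⟨0, ?_, ?_⟩
    · rw [hBP' h1]
      exact dist_pos.2 (hP x h1)
    · rw [hBP' h1, hBP h1, dist_self]
  · exact Or.inr h1

/-- The admissible maps. -/
def Adm (C : Set V) (P : V → V) : Prop :=
  ContinuousOn P C ∧ ∀ x ∈ C, dist (P x) (D.F x) < D.ε ∧ P x ≠ D.y

theorem exists_ext {P : V → V} (hP : Adm D D.W P) : ∃ B : V → V, Continuous B ∧ EqOn B P D.W ∧
    (∀ x, dist (B x) (D.F x) ≤ D.ε) ∧ HasDeg μ D.X B D.y (D.deg P) := by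
  obtain ⟨B, hB, hBF, hBP⟩ := Helper83.RK.exists_extend D.hW.isClosed D.hF hP.1 D.hε
    fun x hx => (hP.2 x hx).1.le
  exact ⟨B, hB, hBP, hBF, deg_spec D (fun x hx => (hP.2 x hx).2) hB hBP fun x _ => hBF x⟩

theorem deg_eq {P P' B : V → V} (hP' : Adm D D.W P') (hB : Continuous B)
    (hBP : EqOn B P' D.W) (hBF : ∀ x ∈ closure D.X, dist (B x) (D.F x) ≤ D.ε)
    (h : HasDeg μ D.X B D.y (D.deg P)) : D.deg P' = D.deg P := by
  have h1 := deg_spec D (fun x hx => (hP'.2 x hx).2) hB hBP hBF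
  have h2 := HasDeg.unique μ D.hX D.hXb hB.continuousOn h1 h
  exact_mod_cast h2

theorem compact_of_cl {C : Set V} (hC : Cl D.g C) (hCW : C ⊆ D.W) : IsCompact C :=
  D.hW.of_isClosed_subset hC.1 hCW

/-- strict inequalities on compact sets leave room -/
theorem exists_room {C : Set V} (hC : IsCompact C) {f : V → ℝ} (hf : ContinuousOn f C) {ε : ℝ}
    (hε : 0 < ε) (h : ∀ x ∈ C, f x < ε) : ∃ ε' : ℝ, 0 < ε' ∧ ε' < ε ∧ ∀ x ∈ C, f x ≤ ε' := by
  rcases C.eq_empty_or_nonempty with rfl | hne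
  · exact ⟨ε / 2, by positivity, by linarith, fun x hx => absurd hx (notMem_empty x)⟩
  · obtain ⟨z, hz, hmax⟩ := hC.exists_isMaxOn hne hf
    refine ⟨max (f z) (ε / 2), lt_max_of_lt_right (by positivity),
      max_lt (h z hz) (by linarith), fun x hx => (hmax hx).trans (le_max_left _ _)⟩

theorem dist_contOn {C : Set V} {P F : V → V} (hP : ContinuousOn P C) (hF : Continuous F) :
    ContinuousOn (fun x => dist (P x) (F x)) C :=
  continuous_dist.comp_continuousOn (hP.prodMk hF.continuousOn)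

/-- extension to a null set -/
theorem exists_never {C K : Set V} (hC : IsCompact C) (hK : μ K = 0) {P : V → V}
    (hP : Adm D C P) : ∃ M : V → V, Continuous M ∧ EqOn M P C ∧
      (∀ x, dist (M x) (D.F x) < D.ε) ∧ ∀ x ∈ K, M x ≠ D.y := by
  obtain ⟨ε', h1, h2, h3⟩ := exists_room hC (dist_contOn hP.1 D.hF) D.hε fun x hx => (hP.2 x hx).1
  obtain ⟨A, hA, hAF, hAP⟩ := Helper83.RK.exists_extend hC.isClosed D.hF hP.1 h1 h3
  obtain ⟨M, hM, hMA, hMC, hMK⟩ := Helper83.RK.exists_perturb μ hK hC hA (y := D.y)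
    (fun x hx => by rw [hAP x hx]; exact (hP.2 x hx).2) (ε := (D.ε - ε') / 2) (by linarith)
  refine ⟨M, hM, fun x hx => by rw [hMC x hx, hAP x hx], fun x => ?_, hMK⟩
  have h4 := hAF x
  have h5 := hMA x
  have h6 := dist_triangle (M x) (A x) (D.F x)
  linarith

/-- a generic cut -/
theorem exists_cut {C₁ C₂ : Set V} (h₁ : IsClosed C₁) (h₂ : IsClosed C₂) (hne₁ : C₁.Nonempty)
    (hne₂ : C₂.Nonempty) (h0 : μ (C₁ ∩ C₂) = 0) : ∃ θ : ℝ, 0 < θ ∧
      μ {x | infDist x C₁ = θ * infDist x C₂} = 0 := by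
  have hm : Measurable fun x : V => infDist x C₁ / infDist x C₂ :=
    (continuous_infDist_pt C₁).measurable.div (continuous_infDist_pt C₂).measurable
  have hc := Measure.countable_meas_level_set_pos (μ := μ) hm
  have h1 : ¬ (Ioo (0 : ℝ) 1 ⊆ {t : ℝ | 0 < μ {x : V | infDist x C₁ / infDist x C₂ = t}}) := by
    intro h
    exact (Cardinal.Real.Ioo_countable_iff.1 (hc.mono h)).not_gt zero_lt_one
  obtain ⟨θ, hθ, hθb⟩ := not_subset.1 h1
  refine ⟨θ, hθ.1, ?_⟩
  have h2 : μ {x : V | infDist x C₁ / infDist x C₂ = θ} = 0 := by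
    by_contra h3
    exact hθb (pos_iff_ne_zero.2 h3)
  refine measure_mono_null (t := {x : V | infDist x C₁ / infDist x C₂ = θ} ∪ (C₁ ∩ C₂)) ?_
    (measure_union_null h2 h0)
  intro x hx
  have hx' : infDist x C₁ = θ * infDist x C₂ := hx
  by_cases h4 : infDist x C₂ = 0
  · right
    rw [h4, mul_zero] at hx'
    exact ⟨(h₁.mem_iff_infDist_zero hne₁).2 hx', (h₂.mem_iff_infDist_zero hne₂).2 h4⟩
  · left
    change infDist x C₁ / infDist x C₂ = θ
    rw [hx']
    field_simp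

/-- the maps on the walls and on the cut -/
theorem glue {C₁ C₂ S : Set V} (hS : IsClosed S) (hSW : ∀ x ∈ S, x ∈ D.W → x ∈ C₁ ∩ C₂)
    {M P : V → V} (hM : Continuous M) (hMF : ∀ x, dist (M x) (D.F x) < D.ε)
    (hP : Adm D D.W P) (hMP : EqOn M P (C₁ ∩ C₂)) :
    ∃ B : V → V, Continuous B ∧ EqOn B P D.W ∧ EqOn B M S ∧ ∀ x, dist (B x) (D.F x) ≤ D.ε := by
  classical
  let h : V → V := fun x => if x ∈ D.W then P x else M x
  have e1 : EqOn h P D.W := fun x hx => if_pos hx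
  have e2 : EqOn h M S := by
    intro x hx
    by_cases hxW : x ∈ D.W
    · rw [e1 hxW, hMP (hSW x hx hxW)]
    · exact if_neg hxW
  have hc : ContinuousOn h (D.W ∪ S) :=
    ContinuousOn.union_of_isClosed (hP.1.congr e1) (hM.continuousOn.congr e2) D.hW.isClosed hS
  obtain ⟨B, hB, hBF, hBh⟩ := Helper83.RK.exists_extend (D.hW.isClosed.union hS) D.hF hc D.hε
    (by
      rintro x (hx | hx)
      · rw [e1 hx]; exact (hP.2 x hx).1.le
      · rw [e2 hx]; exact (hMF x).le)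
  exact ⟨B, hB, fun x hx => by rw [hBh x (Or.inl hx), e1 hx],
    fun x hx => by rw [hBh x (Or.inr hx), e2 hx], hBF⟩

/-- locality -/
theorem modular {C₁ C₂ : Set V} {P P' Q Q' : V → V} (h₁ : IsClosed C₁) (h₂ : IsClosed C₂)
    (hC : C₁ ∪ C₂ = D.W) (hP : Adm D D.W P) (hP' : Adm D D.W P') (hQ : Adm D D.W Q)
    (hQ' : Adm D D.W Q') (e1 : EqOn P P' C₂) (e2 : EqOn Q Q' C₂) (e3 : EqOn P Q C₁)
    (e4 : EqOn P' Q' C₁) : D.deg P' - D.deg P = D.deg Q' - D.deg Q := by
  classical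
  have hcongr : ∀ {P P' : V → V}, Adm D D.W P → Adm D D.W P' → EqOn P P' D.W →
      D.deg P' = D.deg P := by
    intro P P' hP hP' h
    obtain ⟨B, hB, hBP, hBF, hdeg⟩ := exists_ext D hP
    exact deg_eq D hP' hB (hBP.trans h) (fun x _ => hBF x) hdeg
  rcases C₁.eq_empty_or_nonempty with rfl | hne₁
  · rw [empty_union] at hC
    subst hC
    rw [hcongr hP hP' e1, hcongr hQ hQ' e2]
    ring
  rcases C₂.eq_empty_or_nonempty with rfl | hne₂
  · rw [union_empty] at hC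
    subst hC
    rw [hcongr hP hQ e3, hcongr hP' hQ' e4]
  have hC1 : C₁ ⊆ D.W := by rw [← hC]; exact subset_union_left
  have hC2 : C₂ ⊆ D.W := by rw [← hC]; exact subset_union_right
  have h0 : μ (C₁ ∩ C₂) = 0 := measure_mono_null (inter_subset_left.trans hC1) D.hW0
  obtain ⟨θ, hθ, hS0⟩ := exists_cut (μ := μ) h₁ h₂ hne₁ hne₂ h0
  set S : Set V := {x | infDist x C₁ = θ * infDist x C₂} with hSdef
  have hf1 : Continuous fun x : V => infDist x C₁ := continuous_infDist_pt C₁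
  have hf2 : Continuous fun x : V => θ * infDist x C₂ :=
    continuous_const.mul (continuous_infDist_pt C₂)
  have hS : IsClosed S := isClosed_eq hf1 hf2
  have hz1 : ∀ x, x ∈ C₁ ↔ infDist x C₁ = 0 := fun x => h₁.mem_iff_infDist_zero hne₁
  have hz2 : ∀ x, x ∈ C₂ ↔ infDist x C₂ = 0 := fun x => h₂.mem_iff_infDist_zero hne₂
  have hn1 : ∀ x, 0 ≤ infDist x C₁ := fun x => infDist_nonneg
  have hn2 : ∀ x, 0 ≤ infDist x C₂ := fun x => infDist_nonneg
  have hle1 : ∀ x ∈ D.W, infDist x C₁ ≤ θ * infDist x C₂ → x ∈ C₁ := by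
    intro x hx hle
    rw [← hC] at hx
    rcases hx with hx | hx
    · exact hx
    · rw [(hz2 x).1 hx, mul_zero] at hle
      exact (hz1 x).2 (le_antisymm hle (hn1 x))
  have hle2 : ∀ x ∈ D.W, θ * infDist x C₂ ≤ infDist x C₁ → x ∈ C₂ := by
    intro x hx hle
    rw [← hC] at hx
    rcases hx with hx | hx
    · rw [(hz1 x).1 hx] at hle
      have : infDist x C₂ = 0 := by
        have := hn2 x
        nlinarith
      exact (hz2 x).2 this
    · exact hx
  have hSW : ∀ x ∈ S, x ∈ D.W → x ∈ C₁ ∩ C₂ := fun x hx hxW =>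
    ⟨hle1 x hxW (le_of_eq hx), hle2 x hxW (le_of_eq hx.symm)⟩
  -- the map on the cut
  have hPC : Adm D (C₁ ∩ C₂) P :=
    ⟨hP.1.mono (inter_subset_left.trans hC1), fun x hx => hP.2 x (hC1 hx.1)⟩
  obtain ⟨M, hM, hMP, hMF, hMS⟩ := exists_never D (K := S)
    (D.hW.of_isClosed_subset (h₁.inter h₂) (inter_subset_left.trans hC1)) hS0 hPC
  have hMP' : EqOn M P' (C₁ ∩ C₂) := fun x hx => (hMP hx).trans (e1 hx.2)
  have hMQ : EqOn M Q (C₁ ∩ C₂) := fun x hx => (hMP hx).trans (e3 hx.1)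
  have hMQ' : EqOn M Q' (C₁ ∩ C₂) := fun x hx => (hMQ hx).trans (e2 hx.2)
  -- the two parts of the chamber
  set X₁ : Set V := D.X ∩ {x | infDist x C₁ < θ * infDist x C₂} with hX1
  set X₂ : Set V := D.X ∩ {x | θ * infDist x C₂ < infDist x C₁} with hX2
  have hX1o : IsOpen X₁ := D.hX.inter (isOpen_lt hf1 hf2)
  have hX2o : IsOpen X₂ := D.hX.inter (isOpen_lt hf2 hf1)
  have hX1s : X₁ ⊆ D.X := inter_subset_left
  have hX2s : X₂ ⊆ D.X := inter_subset_left
  have hcl1 : closure X₁ ⊆ {x | infDist x C₁ ≤ θ * infDist x C₂} :=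
    closure_minimal (fun x hx =>
      (show infDist x C₁ ≤ θ * infDist x C₂ from le_of_lt hx.2)) (isClosed_le hf1 hf2)
  have hcl2 : closure X₂ ⊆ {x | θ * infDist x C₂ ≤ infDist x C₁} :=
    closure_minimal (fun x hx =>
      (show θ * infDist x C₂ ≤ infDist x C₁ from le_of_lt hx.2)) (isClosed_le hf2 hf1)
  -- the frontiers of the parts
  have hfr1 : ∀ x ∈ frontier X₁, x ∈ S ∨ x ∈ C₁ ∨ 2 * D.ε ≤ dist (D.F x) D.y := by
    intro x hx
    by_cases hxS : x ∈ S
    · exact Or.inl hxS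
    · right
      have h1 : infDist x C₁ ≤ θ * infDist x C₂ := hcl1 (frontier_subset_closure hx)
      have h2 : infDist x C₁ < θ * infDist x C₂ := lt_of_le_of_ne h1 hxS
      have h3 : x ∉ D.X := fun h => (hX1o.frontier_eq ▸ hx).2 ⟨h, h2⟩
      have h4 : x ∈ frontier D.X := by
        rw [D.hX.frontier_eq]
        exact ⟨closure_mono hX1s (frontier_subset_closure hx), h3⟩
      rcases D.hfr x h4 with h5 | h5
      · exact Or.inl (hle1 x h5 h1)
      · exact Or.inr h5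
  have hfr2 : ∀ x ∈ frontier X₂, x ∈ S ∨ x ∈ C₂ ∨ 2 * D.ε ≤ dist (D.F x) D.y := by
    intro x hx
    by_cases hxS : x ∈ S
    · exact Or.inl hxS
    · right
      have h1 : θ * infDist x C₂ ≤ infDist x C₁ := hcl2 (frontier_subset_closure hx)
      have h2 : θ * infDist x C₂ < infDist x C₁ := lt_of_le_of_ne h1 (Ne.symm hxS)
      have h3 : x ∉ D.X := fun h => (hX2o.frontier_eq ▸ hx).2 ⟨h, h2⟩
      have h4 : x ∈ frontier D.X := by
        rw [D.hX.frontier_eq]
        exact ⟨closure_mono hX2s (frontier_subset_closure hx), h3⟩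
      rcases D.hfr x h4 with h5 | h5
      · exact Or.inl (hle2 x h5 h1)
      · exact Or.inr h5
  -- extensions and their degrees on the parts
  have hext : ∀ P : V → V, Adm D D.W P → EqOn M P (C₁ ∩ C₂) → ∃ (B : V → V) (k₁ k₂ : ℝ),
      Continuous B ∧ EqOn B P D.W ∧ EqOn B M S ∧ (∀ x, dist (B x) (D.F x) ≤ D.ε) ∧
      HasDeg μ X₁ B D.y k₁ ∧ HasDeg μ X₂ B D.y k₂ ∧ (D.deg P : ℝ) = k₁ + k₂ := by
    intro P hP hMP
    obtain ⟨B, hB, hBP, hBM, hBF⟩ := glue D hS hSW hM hMF hP hMP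
    have hne : ∀ x ∈ closure D.X, B x = D.y → x ∈ X₁ ∨ x ∈ X₂ := by
      intro x hx heq
      have h1 : x ∉ S := fun h => hMS x h (by rw [← hBM h]; exact heq)
      have h2 : x ∉ D.W := fun h => (hP.2 x h).2 (by rw [← hBP h]; exact heq)
      have h3 : x ∈ D.X := by
        by_contra h
        have h4 : x ∈ frontier D.X := by
          rw [D.hX.frontier_eq]
          exact ⟨hx, h⟩
        rcases D.hfr x h4 with h5 | h5
        · exact h2 h5
        · exact far_ne D (hBF x) h5 heq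
      rcases lt_or_gt_of_ne (show infDist x C₁ ≠ θ * infDist x C₂ from h1) with h4 | h4
      · exact Or.inl ⟨h3, h4⟩
      · exact Or.inr ⟨h3, h4⟩
    have hd12 : Disjoint X₁ X₂ := by
      rw [Set.disjoint_left]
      rintro x ⟨_, hx⟩ ⟨_, hx'⟩
      have hx1 : infDist x C₁ < θ * infDist x C₂ := hx
      have hx2 : θ * infDist x C₂ < infDist x C₁ := hx'
      linarith
    obtain ⟨k₁, hk₁⟩ := HasDeg.exists μ hX1o (D.hXb.subset hX1s) (F := B) hB.continuousOn
      (y := D.y) (by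
        intro x hx heq
        have hx' := hX1o.frontier_eq ▸ hx
        rcases hne x (closure_mono hX1s hx'.1) heq with h | h
        · exact hx'.2 h
        · exact Set.disjoint_left.1 (hd12.closure_left hX2o) hx'.1 h)
    obtain ⟨k₂, hk₂⟩ := HasDeg.exists μ hX2o (D.hXb.subset hX2s) (F := B) hB.continuousOn
      (y := D.y) (by
        intro x hx heq
        have hx' := hX2o.frontier_eq ▸ hx
        rcases hne x (closure_mono hX2s hx'.1) heq with h | h
        · exact Set.disjoint_left.1 (hd12.symm.closure_left hX1o) hx'.1 h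
        · exact hx'.2 h)
    refine ⟨B, k₁, k₂, hB, hBP, hBM, hBF, hk₁, hk₂, ?_⟩
    have hsum := HasDeg.sum μ (Finset.univ : Finset Bool) D.hX D.hXb
      (W := fun b => if b = true then X₁ else X₂)
      (fun i _ => by cases i <;> simp [hX1o, hX2o])
      (fun i _ => by cases i <;> simp [hX1s, hX2s])
      (by
        intro i _ j _ hij
        cases i <;> cases j
        · exact absurd rfl hij
        · simpa [Function.onFun] using hd12.symm
        · simpa [Function.onFun] using hd12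
        · exact absurd rfl hij)
      (F := B) hB.continuousOn (y := D.y)
      (fun x hx heq => by
        rcases hne x hx heq with h | h
        · exact ⟨true, Finset.mem_univ _, by simpa using h⟩
        · exact ⟨false, Finset.mem_univ _, by simpa using h⟩)
      (k := fun b => if b = true then k₁ else k₂)
      (fun i _ => by cases i <;> simp [hk₁, hk₂])
    have h5 := HasDeg.unique μ D.hX D.hXb hB.continuousOn
      (deg_spec D (fun x hx => (hP.2 x hx).2) hB hBP fun x _ => hBF x) hsum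
    rw [h5]
    simp
  obtain ⟨BP, p1, p2, hBP, hBP1, hBP2, hBP3, hp1, hp2, hpp⟩ := hext P hP hMP
  obtain ⟨BP', p1', p2', hBP', hBP1', hBP2', hBP3', hp1', hp2', hpp'⟩ := hext P' hP' hMP'
  obtain ⟨BQ, q1, q2, hBQ, hBQ1, hBQ2, hBQ3, hq1, hq2, hqq⟩ := hext Q hQ hMQ
  obtain ⟨BQ', q1', q2', hBQ', hBQ1', hBQ2', hBQ3', hq1', hq2', hqq'⟩ := hext Q' hQ' hMQ'
  -- comparison
  have cmp : ∀ {C Y : Set V} {P Q BP BQ : V → V} {k k' : ℝ}, IsOpen Y → Y ⊆ D.X → C ⊆ D.W →
      (∀ x ∈ frontier Y, x ∈ S ∨ x ∈ C ∨ 2 * D.ε ≤ dist (D.F x) D.y) → Adm D D.W P →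
      Continuous BP → Continuous BQ → EqOn BP P D.W → EqOn BQ Q D.W → EqOn BP M S → EqOn BQ M S →
      (∀ x, dist (BP x) (D.F x) ≤ D.ε) → (∀ x, dist (BQ x) (D.F x) ≤ D.ε) → EqOn P Q C →
      HasDeg μ Y BP D.y k → HasDeg μ Y BQ D.y k' → k' = k := by
    intro C Y P Q BP BQ k k' hY hYX hCW hfr hP hBP hBQ h1 h2 h3 h4 h5 h6 h7 hk hk'
    have h8 : HasDeg μ Y BQ D.y k := by
      refine deg_cmp D hY hYX hBP hBQ (fun x _ => h5 x) (fun x _ => h6 x) (fun x hx => ?_) hk
      rcases hfr x hx with h | h | h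
      · refine Or.inl ⟨0, ?_, ?_⟩
        · rw [h3 h]
          exact dist_pos.2 (hMS x h)
        · rw [h3 h, h4 h, dist_self]
      · refine Or.inl ⟨0, ?_, ?_⟩
        · rw [h1 (hCW h)]
          exact dist_pos.2 (hP.2 x (hCW h)).2
        · rw [h1 (hCW h), h2 (hCW h), h7 h, dist_self]
      · exact Or.inr h
    exact HasDeg.unique μ hY (D.hXb.subset hYX) hBQ.continuousOn hk' h8
  have c1 : q1 = p1 := cmp hX1o hX1s hC1 hfr1 hP hBP hBQ hBP1 hBQ1 hBP2 hBQ2 hBP3 hBQ3 e3 hp1 hq1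
  have c2 : q1' = p1' := cmp hX1o hX1s hC1 hfr1 hP' hBP' hBQ' hBP1' hBQ1' hBP2' hBQ2' hBP3' hBQ3'
    e4 hp1' hq1'
  have c3 : p2' = p2 := cmp hX2o hX2s hC2 hfr2 hP hBP hBP' hBP1 hBP1' hBP2 hBP2' hBP3 hBP3' e1
    hp2 hp2'
  have c4 : q2' = q2 := cmp hX2o hX2s hC2 hfr2 hQ hBQ hBQ' hBQ1 hBQ1' hBQ2 hBQ2' hBQ3 hBQ3' e2
    hq2 hq2'
  have h9 : ((D.deg P' - D.deg P : ℤ) : ℝ) = ((D.deg Q' - D.deg Q : ℤ) : ℝ) := by
    push_cast
    rw [hpp, hpp', hqq, hqq', c1, c2, c3, c4]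
    ring
  exact_mod_cast h9

/-- local constancy -/
theorem loc_const {P : V → V} (hP : Adm D D.W P) {η : ℝ} (hη : 0 < η) : ∃ η' : ℝ, 0 < η' ∧
    ∀ {C : Set V} {Q : V → V}, Cl D.g C → C ⊆ D.W → Adm D C Q →
    (∀ x ∈ C, dist (Q x) (P x) < η') →
    ∃ P' : V → V, Adm D D.W P' ∧ EqOn P' Q C ∧ (∀ x ∈ D.W, dist (P' x) (P x) < η) ∧
      D.deg P' = D.deg P := by
  obtain ⟨B, hB, hBP, hBF, hdeg⟩ := exists_ext D hP
  obtain ⟨ε', h1, h2, h3⟩ := exists_room D.hW (dist_contOn hP.1 D.hF) D.hε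
    fun x hx => (hP.2 x hx).1
  obtain ⟨r, hr, hgap⟩ := exists_gap D.hW hP.1 fun x hx => (hP.2 x hx).2
  have hη' : 0 < min (η / 2) (min r ((D.ε - ε') / 2)) := by
    refine lt_min (by positivity) (lt_min hr (by linarith))
  refine ⟨min (η / 2) (min r ((D.ε - ε') / 2)), hη', ?_⟩
  intro C Q hC hCW hQ hd
  set κ := min (η / 2) (min r ((D.ε - ε') / 2)) with hκ
  have k1 : κ ≤ η / 2 := min_le_left _ _
  have k2 : κ ≤ r := (min_le_right _ _).trans (min_le_left _ _)
  have k3 : κ ≤ (D.ε - ε') / 2 := (min_le_right _ _).trans (min_le_right _ _)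
  obtain ⟨A, hA, hAB, hAQ⟩ := Helper83.RK.exists_extend hC.1 hB hQ.1 hη'
    fun x hx => by rw [hBP (hCW hx)]; exact (hd x hx).le
  have hAP : ∀ x ∈ D.W, dist (A x) (P x) ≤ κ := fun x hx => by
    rw [← hBP hx]; exact hAB x
  have hAadm : Adm D D.W A := by
    refine ⟨hA.continuousOn, fun x hx => ⟨?_, ?_⟩⟩
    · have h4 := hAP x hx
      have h5 := h3 x hx
      have h6 := dist_triangle (A x) (P x) (D.F x)
      linarith
    · intro heq
      have h4 := hAP x hx
      have h5 := hgap x hx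
      rw [heq, dist_comm] at h4
      linarith
  obtain ⟨B', hB', hBA', hBF', hdeg'⟩ := exists_ext D hAadm
  refine ⟨A, hAadm, fun x hx => hAQ x hx, fun x hx => lt_of_le_of_lt (hAP x hx) (by linarith), ?_⟩
  have h4 : HasDeg μ D.X B' D.y (D.deg P) := by
    refine deg_cmp D D.hX Subset.rfl hB hB' (fun x _ => hBF x) (fun x _ => hBF' x)
      (fun x hx => ?_) hdeg
    rcases D.hfr x hx with h5 | h5
    · refine Or.inl ⟨κ, ?_, ?_⟩
      · rw [hBP h5]
        have := hgap x h5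
        linarith
      · rw [hBP h5, hBA' h5]
        exact hAP x h5
    · exact Or.inr h5
  exact deg_eq D hAadm hB' hBA' (fun x _ => hBF' x) h4

/-- invariance -/
theorem deg_act {P : V → V} (hP : Adm D D.W P) (h : H) (hP' : Adm D D.W fun x => P (D.g h x)) :
    D.deg (fun x => P (D.g h x)) = D.deg P := by
  obtain ⟨B, hB, hBP, hBF, hdeg⟩ := exists_ext D hP
  have hc : ∀ x ∈ closure D.X, dist (B (D.g h x)) (D.F x) ≤ D.ε := fun x hx => by
    rw [← D.hFX h x hx]; exact hBF _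
  have h1 : HasDeg μ D.X (fun x => B (D.g h x)) D.y (D.deg P) := by
    refine D.htr h B _ hB hdeg fun x hx => ?_
    rcases D.hfr x hx with h5 | h5
    · rw [hBP (D.hgW h x h5)]
      exact (hP.2 _ (D.hgW h x h5)).2
    · exact far_ne D (B := fun x => B (D.g h x)) (hc x (frontier_subset_closure hx)) h5
  exact deg_eq D hP' (hB.comp (D.hg h)) (fun x hx => hBP (D.hgW h x hx)) hc h1

theorem adm_act {C : Set V} {P : V → V} (h : H) (hC : Cl D.g C) (hCW : C ⊆ D.W)
    (hP : Adm D C P) : Adm D C fun x => P (D.g h x) :=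
  ⟨hP.1.comp (D.hg h).continuousOn fun x hx => hC.2 h x hx, fun x hx => by
    have h1 := hP.2 _ (hC.2 h x hx)
    rw [D.hFW h x (hCW hx)] at h1
    exact h1⟩

end h9

section base
variable {V : Type} [NormedAddCommGroup V] [NormedSpace ℝ V] [FiniteDimensional ℝ V]
  [MeasurableSpace V] [BorelSpace V] {μ : Measure V} [μ.IsAddHaarMeasure] {H : Type}
  [AddCommGroup H] {p : ℕ}

open h9

/-- The theory on the walls. -/
noncomputable def CDat.thy (D : CDat μ H p) : Thy D.g p where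
  E := V
  W := D.W
  Adm := fun C P => ContinuousOn P C ∧ ∀ x ∈ C, dist (P x) (D.F x) < D.ε ∧ P x ≠ D.y
  δ := D.deg
  hW := ⟨D.hW.isClosed, D.hgW⟩
  g0 := D.g0
  gadd := D.gadd
  sep := D.sep
  congr := fun {C P P'} hC hP h => ⟨hP.1.congr fun x hx => (h hx).symm, fun x hx => by
    rw [← h hx]; exact hP.2 x hx⟩
  mono := fun {C C' P} hP h => ⟨hP.1.mono h, fun x hx => hP.2 x (h hx)⟩
  union := fun {C₁ C₂ P} h₁ h₂ hP hP' => ⟨hP.1.union_of_isClosed hP'.1 h₁.1 h₂.1, by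
    rintro x (hx | hx)
    · exact hP.2 x hx
    · exact hP'.2 x hx⟩
  act := fun {C P} h hC hCW hP => adm_act D h hC hCW hP
  ext := fun {C P} hC hCW hP => by
    obtain ⟨M, hM, hMP, hMF, hMW⟩ := exists_never D (compact_of_cl D hC hCW) D.hW0 hP
    exact ⟨M, ⟨hM.continuousOn, fun x hx => ⟨hMF x, hMW x hx⟩⟩, hMP⟩
  d0 := fun {P P'} hP h => by
    have hP' : h9.Adm D D.W P' := ⟨hP.1.congr fun x hx => (h hx).symm, fun x hx => by
      rw [← h hx]; exact hP.2 x hx⟩
    obtain ⟨B, hB, hBP, hBF, hdeg⟩ := exists_ext D hP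
    exact (deg_eq D hP' hB (hBP.trans h) (fun x _ => hBF x) hdeg).symm
  d1 := fun {P} h hP => deg_act D hP h
    (adm_act D h ⟨D.hW.isClosed, D.hgW⟩ Subset.rfl hP)
  d2 := fun {C₁ C₂ P P' Q Q'} h₁ h₂ hC hP hP' hQ hQ' e1 e2 e3 e4 =>
    modular D h₁.1 h₂.1 hC hP hP' hQ hQ' e1 e2 e3 e4
  d3 := fun {P} hP η hη => loc_const D hP hη
  d4 := fun {C P} h hC hCW hP η hη => by
    have hc := compact_of_cl D hC hCW
    have huc := hc.uniformContinuousOn_of_continuous hP.1
    rw [Metric.uniformContinuousOn_iff] at huc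
    obtain ⟨δ, hδ, hu⟩ := huc η hη
    filter_upwards [D.conv h δ hδ] with M hM x hx
    exact hu _ (hC.2 _ x hx) x hx (hM x (hCW hx))

theorem CDat.hasDeg_deg (D : CDat μ H p) {B : V → V} (hB : Continuous B)
    (hBF : ∀ x ∈ closure D.X, dist (B x) (D.F x) ≤ D.ε)
    (hBW : ∀ x ∈ D.W, B x ≠ D.y) : HasDeg μ D.X B D.y (D.deg B) :=
  deg_spec D hBW hB (fun _ _ => rfl) hBF

end base

end Pool.Agent.Helper83.RK2
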